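import Mathlib

open Filter Topology

namespace Pool.Agent.Results.MP_af7c6a_co.SuperlinearNorm

/-- The distance from `t` to the nearest integer. -/
noncomputable def distInt (t : ℝ) : ℝ := |t - round t|

/-- `N` is a norm on `ℝ^d`. -/
structure IsNorm {d : ℕ} (N : (Fin d → ℝ) → ℝ) : Prop where
  pos : ∀ x, x ≠ 0 → 0 < N x
  smul : ∀ (c : ℝ) (x : Fin d → ℝ), N (c • x) = |c| * N x
  add_le : ∀ x y, N (x + y) ≤ N x + N y

/-- There are `n` points in some closed `N`-ball of radius `X` all of whose mutual `N`-distances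
are at distance at least `δ` from the integers. -/
def Adm {d : ℕ} (N : (Fin d → ℝ) → ℝ) (X δ : ℝ) (n : ℕ) : Prop :=
  ∃ (c : Fin d → ℝ) (p : Fin n → Fin d → ℝ), (∀ i, N (p i - c) ≤ X) ∧
    ∀ i j, i ≠ j → δ ≤ distInt (N (p i - p j))

/-- `N_N(X, δ)`: the largest `n` admitting such a configuration. -/
noncomputable def maxN {d : ℕ} (N : (Fin d → ℝ) → ℝ) (X δ : ℝ) : ℕ :=
  sSup {n : ℕ | Adm N X δ n}

/-! ### a one-dimensional snowflake embedding -/

lemma geo (θ : ℝ) (h0 : 0 < θ) (h1 : θ < 1) (n : ℕ) :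
    ∑ i ∈ Finset.range n, θ ^ (i + 1) ≤ θ / (1 - θ) := by
  have h : ∑ i ∈ Finset.range n, θ ^ (i + 1) = θ * ∑ i ∈ Finset.range n, θ ^ i := by
    rw [Finset.mul_sum]; refine Finset.sum_congr rfl fun i _ => by ring
  rw [h, geom_sum_eq h1.ne]
  have h2 : (0:ℝ) < 1 - θ := by linarith
  have h3 : (θ ^ n - 1) / (θ - 1) = (1 - θ ^ n) / (1 - θ) := by
    rw [← neg_sub 1 (θ ^ n), ← neg_sub 1 θ, neg_div_neg_eq]
  rw [h3, div_eq_mul_inv θ, div_eq_mul_inv]
  have h4 : 0 < θ ^ n := pow_pos h0 n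
  have h5 : 0 < (1 - θ)⁻¹ := inv_pos.mpr h2
  have : (1 - θ ^ n) * (1 - θ)⁻¹ ≤ 1 * (1 - θ)⁻¹ :=
    mul_le_mul_of_nonneg_right (by linarith) h5.le
  nlinarith

lemma geo2 (θ : ℝ) (h0 : 0 < θ) (h1 : θ < 1) (j0 J : ℕ) :
    ∑ j ∈ (Finset.range J).erase j0, θ ^ ((j0 - j) + (j - j0)) ≤ 2 * (θ / (1 - θ)) := by
  have hsub : (Finset.range J).erase j0 ⊆
      Finset.range j0 ∪ Finset.Ico (j0 + 1) (j0 + 1 + J) := by
    intro j hj
    simp only [Finset.mem_erase, Finset.mem_range, Finset.mem_union, Finset.mem_Ico] at hj ⊢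
    omega
  have hdis : Disjoint (Finset.range j0) (Finset.Ico (j0 + 1) (j0 + 1 + J)) := by
    rw [Finset.disjoint_left]
    intro j hj hj'
    simp only [Finset.mem_range, Finset.mem_Ico] at hj hj'
    omega
  calc ∑ j ∈ (Finset.range J).erase j0, θ ^ ((j0 - j) + (j - j0))
      ≤ ∑ j ∈ Finset.range j0 ∪ Finset.Ico (j0 + 1) (j0 + 1 + J),
          θ ^ ((j0 - j) + (j - j0)) :=
        Finset.sum_le_sum_of_subset_of_nonneg hsub (fun i _ _ => (pow_pos h0 _).le)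
    _ = ∑ j ∈ Finset.range j0, θ ^ ((j0 - j) + (j - j0)) +
          ∑ j ∈ Finset.Ico (j0 + 1) (j0 + 1 + J), θ ^ ((j0 - j) + (j - j0)) :=
        Finset.sum_union hdis
    _ = ∑ j ∈ Finset.range j0, θ ^ (j + 1) + ∑ j ∈ Finset.range J, θ ^ (j + 1) := by
        congr 1
        · rw [← Finset.sum_range_reflect]
          refine Finset.sum_congr rfl fun j hj => ?_
          rw [Finset.mem_range] at hj
          congr 1; omega
        · rw [Finset.sum_Ico_eq_sum_range]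
          rw [show j0 + 1 + J - (j0 + 1) = J by omega]
          refine Finset.sum_congr rfl fun j hj => ?_
          congr 1; omega
    _ ≤ 2 * (θ / (1 - θ)) := by
        have := geo θ h0 h1 j0
        have := geo θ h0 h1 J
        linarith

/-- `e(x) = exp(2πi x)`. -/
noncomputable def e (x : ℝ) : ℂ := Complex.exp (Complex.I * ((2 * Real.pi * x : ℝ) : ℂ))

lemma e_norm (x : ℝ) : ‖e x‖ = 1 := by
  rw [e, mul_comm]; exact Complex.norm_exp_ofReal_mul_I _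

lemma e_sub (x y : ℝ) : ‖e x - e y‖ = ‖e (x - y) - 1‖ := by
  have h : e x = e y * e (x - y) := by
    rw [e, e, e, ← Complex.exp_add]
    congr 1
    push_cast; ring
  rw [h, show e y * e (x - y) - e y = e y * (e (x - y) - 1) by ring, norm_mul, e_norm, one_mul]

lemma e_le_two (x y : ℝ) : ‖e x - e y‖ ≤ 2 := by
  calc ‖e x - e y‖ ≤ ‖e x‖ + ‖e y‖ := norm_sub_le _ _
    _ = 2 := by rw [e_norm, e_norm]; norm_num

lemma e_le (x y : ℝ) : ‖e x - e y‖ ≤ 2 * Real.pi * |x - y| := by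
  rw [e_sub, e]
  refine (Real.norm_exp_I_mul_ofReal_sub_one_le).trans ?_
  rw [Real.norm_eq_abs, abs_mul, abs_of_pos Real.two_pi_pos]

lemma e_ge (x y : ℝ) (h1 : 1 / 4 ≤ |x - y|) (h2 : |x - y| ≤ 1 / 2) : 1 ≤ ‖e x - e y‖ := by
  rw [e_sub, e, Complex.norm_exp_I_mul_ofReal_sub_one]
  rw [norm_mul, Real.norm_eq_abs, Real.norm_eq_abs, abs_of_pos (by norm_num : (0:ℝ) < 2)]
  have h3 : |Real.sin (2 * Real.pi * (x - y) / 2)| = Real.sin (Real.pi * |x - y|) := by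
    rw [show 2 * Real.pi * (x - y) / 2 = Real.pi * (x - y) by ring]
    rcases abs_cases (x - y) with ⟨h, h'⟩ | ⟨h, h'⟩
    · rw [h, abs_of_nonneg]
      apply Real.sin_nonneg_of_nonneg_of_le_pi
      · exact mul_nonneg Real.pi_pos.le h'
      · rw [h] at h2; nlinarith [Real.pi_pos]
    · rw [h, mul_neg, Real.sin_neg, abs_of_nonpos]
      apply Real.sin_nonpos_of_nonpos_of_neg_pi_le
      · nlinarith [Real.pi_pos]
      · rw [h] at h2; nlinarith [Real.pi_pos]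
  rw [h3]
  have h4 := Real.mul_le_sin (x := Real.pi * |x - y|) (by positivity)
    (by nlinarith [Real.pi_pos])
  have h5 : 2 / Real.pi * (Real.pi * |x - y|) = 2 * |x - y| := by
    field_simp
  rw [h5] at h4
  linarith

/-- The `r`-th component of the snowflake map. -/
noncomputable def G (J : ℕ) (t : ℤ) (r : Fin 8) : ℂ :=
  ∑ j ∈ Finset.range J, ((Real.sqrt 2 ^ (8 * j + (r : ℕ)) : ℝ) : ℂ) *
    e ((t : ℝ) / 2 ^ (8 * j + (r : ℕ)))

lemma q_pos : 0 < Real.sqrt 2 := by positivity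

lemma q_sq (k : ℕ) : Real.sqrt 2 ^ k * Real.sqrt 2 ^ k = 2 ^ k := by
  rw [← mul_pow, Real.mul_self_sqrt (by norm_num)]

lemma q_ge : 1 ≤ Real.sqrt 2 := by
  rw [show (1:ℝ) = Real.sqrt 1 by simp]
  exact Real.sqrt_le_sqrt (by norm_num)

lemma q_eight (i : ℕ) : Real.sqrt 2 ^ (8 * i) = 16 ^ i := by
  rw [pow_mul]
  congr 1
  rw [show (8:ℕ) = 2 * 4 by norm_num, pow_mul, Real.sq_sqrt (by norm_num)]
  norm_num

/-- one term -/
noncomputable def T (s t : ℤ) (k : ℕ) : ℂ :=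
  ((Real.sqrt 2 ^ k : ℝ) : ℂ) * (e ((t : ℝ) / 2 ^ k) - e ((s : ℝ) / 2 ^ k))

lemma T_le_two (s t : ℤ) (k : ℕ) : ‖T s t k‖ ≤ 2 * Real.sqrt 2 ^ k := by
  rw [T, norm_mul, Complex.norm_real, Real.norm_eq_abs, abs_of_pos (pow_pos q_pos k)]
  have := e_le_two ((t : ℝ) / 2 ^ k) ((s : ℝ) / 2 ^ k)
  nlinarith [pow_pos q_pos k]

lemma T_le (s t : ℤ) (k : ℕ) : ‖T s t k‖ * Real.sqrt 2 ^ k ≤ 2 * Real.pi * |(t:ℝ) - s| := by
  rw [T, norm_mul, Complex.norm_real, Real.norm_eq_abs, abs_of_pos (pow_pos q_pos k)]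
  have h := e_le ((t : ℝ) / 2 ^ k) ((s : ℝ) / 2 ^ k)
  have h1 : |(t : ℝ) / 2 ^ k - (s : ℝ) / 2 ^ k| = |(t:ℝ) - s| / 2 ^ k := by
    rw [← sub_div, abs_div, abs_of_pos (by positivity : (0:ℝ) < 2 ^ k)]
  rw [h1] at h
  calc Real.sqrt 2 ^ k * ‖e ((t : ℝ) / 2 ^ k) - e ((s : ℝ) / 2 ^ k)‖ * Real.sqrt 2 ^ k
      = 2 ^ k * ‖e ((t : ℝ) / 2 ^ k) - e ((s : ℝ) / 2 ^ k)‖ := by rw [← q_sq k]; ring
    _ ≤ 2 ^ k * (2 * Real.pi * (|(t:ℝ) - s| / 2 ^ k)) :=
        mul_le_mul_of_nonneg_left h (by positivity)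
    _ = 2 * Real.pi * |(t:ℝ) - s| := by field_simp

lemma T_ge (s t : ℤ) (k : ℕ) (h1 : (2:ℝ) ^ k ≤ 4 * |(t:ℝ) - s|) (h2 : 2 * |(t:ℝ) - s| ≤ 2 ^ k) :
    Real.sqrt 2 ^ k ≤ ‖T s t k‖ := by
  rw [T, norm_mul, Complex.norm_real, Real.norm_eq_abs, abs_of_pos (pow_pos q_pos k)]
  have h3 : |(t : ℝ) / 2 ^ k - (s : ℝ) / 2 ^ k| = |(t:ℝ) - s| / 2 ^ k := by
    rw [← sub_div, abs_div, abs_of_pos (by positivity : (0:ℝ) < 2 ^ k)]
  have hp : (0:ℝ) < 2 ^ k := by positivity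
  have := e_ge ((t : ℝ) / 2 ^ k) ((s : ℝ) / 2 ^ k)
    (by rw [h3, le_div_iff₀ hp]; linarith) (by rw [h3, div_le_iff₀ hp]; linarith)
  nlinarith [pow_pos q_pos k]

lemma G_sub (J : ℕ) (s t : ℤ) (r : Fin 8) :
    G J t r - G J s r = ∑ j ∈ Finset.range J, T s t (8 * j + (r : ℕ)) := by
  rw [G, G, ← Finset.sum_sub_distrib]
  refine Finset.sum_congr rfl fun j _ => ?_
  rw [T]; ring

/-- the bound for a single term, relative to the main block `j0` -/
lemma T_block (s t : ℤ) (j0 r0 : ℕ) (h2 : 2 * |(t:ℝ) - s| ≤ 2 ^ (8 * j0 + r0))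
    (j r : ℕ) (A : ℝ) (hA1 : ∀ _ : j < j0, Real.sqrt 2 ^ r ≤ A * Real.sqrt 2 ^ r0)
    (hA2 : ∀ _ : j0 ≤ j, Real.sqrt 2 ^ r0 ≤ A * Real.sqrt 2 ^ r) :
    ‖T s t (8 * j + r)‖ ≤
      Real.pi * A * Real.sqrt 2 ^ (8 * j0 + r0) * (1 / 16) ^ ((j0 - j) + (j - j0)) := by
  rcases lt_or_ge j j0 with h | h
  · have h3 := T_le_two s t (8 * j + r)
    have hA := hA1 h
    obtain ⟨i, rfl⟩ := Nat.exists_eq_add_of_lt h
    have e1 : j + i + 1 - j + (j - (j + i + 1)) = i + 1 := by omega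
    rw [e1]
    have e2 : Real.sqrt 2 ^ (8 * (j + i + 1) + r0) = 16 ^ (i+1) * 16 ^ j * Real.sqrt 2 ^ r0 := by
      rw [pow_add, q_eight, ← pow_add]; congr 2; omega
    have e3 : Real.sqrt 2 ^ (8 * j + r) = 16 ^ j * Real.sqrt 2 ^ r := by
      rw [pow_add, q_eight]
    rw [e3] at h3
    rw [e2]
    have e4 : Real.pi * A * (16 ^ (i+1) * 16 ^ j * Real.sqrt 2 ^ r0) * (1 / 16) ^ (i + 1)
        = Real.pi * (16 ^ j * (A * Real.sqrt 2 ^ r0)) := by
      rw [one_div, inv_pow]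
      field_simp
    rw [e4]
    have h5 : (16:ℝ) ^ j * Real.sqrt 2 ^ r ≤ 16 ^ j * (A * Real.sqrt 2 ^ r0) :=
      mul_le_mul_of_nonneg_left hA (by positivity)
    have h6 : 0 < (16:ℝ) ^ j * Real.sqrt 2 ^ r := by positivity
    nlinarith [Real.pi_gt_three]
  · have h3 := T_le s t (8 * j + r)
    have hA := hA2 h
    obtain ⟨i, rfl⟩ := Nat.exists_eq_add_of_le h
    have e1 : j0 - (j0 + i) + (j0 + i - j0) = i := by omega
    rw [e1]
    have e3 : Real.sqrt 2 ^ (8 * (j0 + i) + r) = 16 ^ j0 * 16 ^ i * Real.sqrt 2 ^ r := by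
      rw [pow_add, q_eight, ← pow_add]
    have e2 : Real.sqrt 2 ^ (8 * j0 + r0) = 16 ^ j0 * Real.sqrt 2 ^ r0 := by
      rw [pow_add, q_eight]
    have e5 : (2:ℝ) ^ (8 * j0 + r0) =
        (16 ^ j0 * Real.sqrt 2 ^ r0) * (16 ^ j0 * Real.sqrt 2 ^ r0) := by
      rw [← q_sq, e2]
    rw [e5] at h2
    rw [e3] at h3
    rw [e2]
    have hp : 0 < (16:ℝ) ^ j0 * 16 ^ i * Real.sqrt 2 ^ r := by positivity
    rw [← mul_le_mul_iff_left₀ hp]
    have e4 : Real.pi * A * (16 ^ j0 * Real.sqrt 2 ^ r0) * (1 / 16) ^ i *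
        (16 ^ j0 * 16 ^ i * Real.sqrt 2 ^ r)
        = Real.pi * ((16 ^ j0 * Real.sqrt 2 ^ r0) * (16 ^ j0 * (A * Real.sqrt 2 ^ r))) := by
      rw [one_div, inv_pow]
      field_simp
    rw [e4]
    refine h3.trans ?_
    have h5 : (16:ℝ) ^ j0 * Real.sqrt 2 ^ r0 ≤ 16 ^ j0 * (A * Real.sqrt 2 ^ r) :=
      mul_le_mul_of_nonneg_left hA (by positivity)
    have h6 : 0 < (16:ℝ) ^ j0 * Real.sqrt 2 ^ r0 := by positivity
    have h7 : 2 * |(t:ℝ) - s| ≤
        (16 ^ j0 * Real.sqrt 2 ^ r0) * (16 ^ j0 * (A * Real.sqrt 2 ^ r)) :=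
      h2.trans (mul_le_mul_of_nonneg_left h5 h6.le)
    nlinarith [Real.pi_pos]

lemma exists_scale (d : ℕ) (hd : 1 ≤ d) : ∃ k : ℕ, (2:ℝ) ^ k ≤ 4 * d ∧ 2 * (d:ℝ) ≤ 2 ^ k ∧
    k ≤ d + 2 := by
  refine ⟨Nat.log 2 d + 2, ?_, ?_, ?_⟩
  · have h := Nat.pow_log_le_self 2 (x := d) (by omega)
    have h' : (2:ℝ) ^ (Nat.log 2 d) ≤ d := by exact_mod_cast h
    rw [pow_add]; linarith
  · have h := Nat.lt_pow_succ_log_self (b := 2) (by norm_num) d
    have h' : (d:ℝ) < 2 ^ (Nat.log 2 d + 1) := by exact_mod_cast h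
    rw [show Nat.log 2 d + 2 = Nat.log 2 d + 1 + 1 by ring, pow_succ]; linarith
  · have := Nat.log_le_self 2 d
    omega

/-- The snowflake embedding of a long interval of integers. -/
lemma snow (L : ℕ) : ∃ g : ℤ → Fin 8 → ℂ, ∀ s t : ℤ, s ≠ t → |t - s| ≤ L →
    (1 / 4 : ℝ) * |(t:ℝ) - s| ≤ ∑ r, ‖g t r - g s r‖ ^ 2 ∧
    ∑ r, ‖g t r - g s r‖ ^ 2 ≤ 60000 * |(t:ℝ) - s| := by
  set J : ℕ := L + 3 with hJ
  refine ⟨G J, fun s t hst hL => ?_⟩
  obtain ⟨d, hd⟩ : ∃ d : ℕ, |t - s| = d := ⟨(t - s).natAbs, by simp⟩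
  have hd1 : 1 ≤ d := by
    have : 0 < |t - s| := abs_pos.mpr (sub_ne_zero.mpr (Ne.symm hst))
    omega
  have hdR : |(t:ℝ) - s| = d := by
    have : ((|t - s| : ℤ) : ℝ) = ((d : ℤ) : ℝ) := by rw [hd]
    push_cast at this
    exact this
  obtain ⟨k, hk1, hk2, hk3⟩ := exists_scale d hd1
  have hdL : d ≤ L := by omega
  set j0 := k / 8 with hj0
  set r0 := k % 8 with hr0
  have hk : 8 * j0 + r0 = k := by omega
  have hr08 : r0 < 8 := by omega
  have hj0J : j0 < J := by omega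
  rw [hdR]
  have hq := q_ge
  have h2 : 2 * |(t:ℝ) - s| ≤ 2 ^ (8 * j0 + r0) := by rw [hk, hdR]; exact hk2
  constructor
  · -- lower bound
    have hmain : Real.sqrt 2 ^ k ≤ ‖T s t k‖ := T_ge s t k (by rw [hdR]; exact hk1)
      (by rw [hdR]; exact hk2)
    have herr : ∑ j ∈ (Finset.range J).erase j0, ‖T s t (8 * j + r0)‖ ≤
        Real.pi * Real.sqrt 2 ^ k * (2 * ((1/16) / (1 - 1/16))) := by
      calc ∑ j ∈ (Finset.range J).erase j0, ‖T s t (8 * j + r0)‖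
          ≤ ∑ j ∈ (Finset.range J).erase j0,
              Real.pi * 1 * Real.sqrt 2 ^ (8 * j0 + r0) * (1 / 16) ^ ((j0 - j) + (j - j0)) :=
            Finset.sum_le_sum fun j _ => T_block s t j0 r0 h2 j r0 1 (by simp) (by simp)
        _ = Real.pi * Real.sqrt 2 ^ k *
              ∑ j ∈ (Finset.range J).erase j0, (1 / 16 : ℝ) ^ ((j0 - j) + (j - j0)) := by
            rw [Finset.mul_sum, hk]; simp
        _ ≤ _ := mul_le_mul_of_nonneg_left (geo2 (1/16) (by norm_num) (by norm_num) j0 J)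
            (by positivity)
    have hsum : G J t ⟨r0, hr08⟩ - G J s ⟨r0, hr08⟩ =
        T s t k + ∑ j ∈ (Finset.range J).erase j0, T s t (8 * j + r0) := by
      rw [G_sub, ← Finset.add_sum_erase _ _ (Finset.mem_range.mpr hj0J)]
      simp only [hk]
    have hnorm : (1/2 : ℝ) * Real.sqrt 2 ^ k ≤ ‖G J t ⟨r0, hr08⟩ - G J s ⟨r0, hr08⟩‖ := by
      rw [hsum]
      have h3 : ‖T s t k‖ - ‖∑ j ∈ (Finset.range J).erase j0, T s t (8 * j + r0)‖ ≤
          ‖T s t k + ∑ j ∈ (Finset.range J).erase j0, T s t (8 * j + r0)‖ := by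
        have := norm_sub_norm_le (T s t k) (-(∑ j ∈ (Finset.range J).erase j0, T s t (8 * j + r0)))
        rw [norm_neg, sub_neg_eq_add] at this
        exact this
      have h4 : ‖∑ j ∈ (Finset.range J).erase j0, T s t (8 * j + r0)‖ ≤
          Real.pi * Real.sqrt 2 ^ k * (2 * ((1/16) / (1 - 1/16))) := (norm_sum_le _ _).trans herr
      have h5 : Real.pi * Real.sqrt 2 ^ k * (2 * ((1/16) / (1 - 1/16))) ≤
          1/2 * Real.sqrt 2 ^ k := by
        have := Real.pi_lt_d2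
        have hp := pow_pos q_pos k
        nlinarith
      linarith
    have hsq : (1/4:ℝ) * 2 ^ k ≤ ‖G J t ⟨r0, hr08⟩ - G J s ⟨r0, hr08⟩‖ ^ 2 := by
      have hp := pow_pos q_pos k
      have := q_sq k
      nlinarith
    have hle : ‖G J t ⟨r0, hr08⟩ - G J s ⟨r0, hr08⟩‖ ^ 2 ≤
        ∑ r, ‖G J t r - G J s r‖ ^ 2 :=
      Finset.single_le_sum (f := fun r => ‖G J t r - G J s r‖ ^ 2)
        (fun r _ => by positivity) (Finset.mem_univ _)
    nlinarith
  · have hcomp : ∀ r : Fin 8, ‖G J t r - G J s r‖ ^ 2 ≤ 7500 * d := by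
      intro r
      set A : ℝ := Real.sqrt 2 ^ 7 with hA
      have hrr : (r : ℕ) ≤ 7 := by omega
      have h1 : ‖G J t r - G J s r‖ ≤ Real.pi * A * Real.sqrt 2 ^ k * (1 + 2 * ((1/16) / (1 - 1/16))) := by
        rw [G_sub]
        refine (norm_sum_le _ _).trans ?_
        calc ∑ j ∈ Finset.range J, ‖T s t (8 * j + (r:ℕ))‖
            ≤ ∑ j ∈ Finset.range J,
              Real.pi * A * Real.sqrt 2 ^ (8 * j0 + r0) * (1 / 16) ^ ((j0 - j) + (j - j0)) := by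
              refine Finset.sum_le_sum fun j _ => T_block s t j0 r0 h2 j r A ?_ ?_
              · intro _
                calc Real.sqrt 2 ^ (r:ℕ) ≤ Real.sqrt 2 ^ 7 := pow_le_pow_right₀ hq hrr
                  _ = A * 1 := by simp [hA]
                  _ ≤ A * Real.sqrt 2 ^ r0 :=
                    mul_le_mul_of_nonneg_left (one_le_pow₀ hq) (by positivity)
              · intro _
                calc Real.sqrt 2 ^ r0 ≤ Real.sqrt 2 ^ 7 := pow_le_pow_right₀ hq (by omega)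
                  _ = A * 1 := by simp [hA]
                  _ ≤ A * Real.sqrt 2 ^ (r:ℕ) :=
                    mul_le_mul_of_nonneg_left (one_le_pow₀ hq) (by positivity)
          _ = Real.pi * A * Real.sqrt 2 ^ k *
              ∑ j ∈ Finset.range J, (1 / 16 : ℝ) ^ ((j0 - j) + (j - j0)) := by
            rw [Finset.mul_sum, hk]
          _ = Real.pi * A * Real.sqrt 2 ^ k *
              (1 + ∑ j ∈ (Finset.range J).erase j0, (1 / 16 : ℝ) ^ ((j0 - j) + (j - j0))) := by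
            rw [← Finset.add_sum_erase _ _ (Finset.mem_range.mpr hj0J)]
            simp
          _ ≤ _ := by
            refine mul_le_mul_of_nonneg_left ?_ (by positivity)
            have := geo2 (1/16) (by norm_num) (by norm_num) j0 J
            linarith
      have hA2 : A * A = 128 := by rw [hA, q_sq]; norm_num
      have h3 : ‖G J t r - G J s r‖ ^ 2 ≤
          (Real.pi * A * Real.sqrt 2 ^ k * (1 + 2 * ((1/16) / (1 - 1/16)))) ^ 2 :=
        pow_le_pow_left₀ (norm_nonneg _) h1 2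
      have h4 : (Real.pi * A * Real.sqrt 2 ^ k * (1 + 2 * ((1/16) / (1 - 1/16)))) ^ 2 =
          Real.pi ^ 2 * (A * A) * (Real.sqrt 2 ^ k * Real.sqrt 2 ^ k) *
            (1 + 2 * ((1/16) / (1 - 1/16))) ^ 2 := by ring
      rw [h4, hA2, q_sq] at h3
      have hpi : Real.pi ^ 2 ≤ 10 := by
        have := Real.pi_lt_d2
        have := Real.pi_pos
        nlinarith
      have hc : (1 + 2 * ((1/16) / (1 - 1/16)) : ℝ) ^ 2 ≤ 1.29 := by norm_num
      calc _ ≤ _ := h3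
        _ ≤ 10 * 128 * (4 * d) * 1.29 := by
            gcongr
        _ ≤ 7500 * d := by
            have : (0:ℝ) ≤ d := by positivity
            nlinarith
    calc ∑ r, ‖G J t r - G J s r‖ ^ 2 ≤ ∑ r : Fin 8, (7500 * d : ℝ) :=
          Finset.sum_le_sum fun r _ => hcomp r
      _ = 60000 * d := by simp; ring

/-! ### the norm and the configurations -/

lemma distInt_ge (t δ : ℝ) (n : ℕ) (h1 : n + δ ≤ t) (h2 : t ≤ n + 1 / 2) (_ : δ ≤ 1 / 2) :
    δ ≤ distInt t := by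
  rw [distInt]
  rcases le_or_gt (round t) (n : ℤ) with h | h
  · have h3 : ((round t : ℤ) : ℝ) ≤ n := by exact_mod_cast h
    exact le_abs.mpr (Or.inl (by linarith))
  · have h3 : (n : ℝ) + 1 ≤ round t := by exact_mod_cast h
    exact le_abs.mpr (Or.inr (by linarith))

lemma distInt_le (t : ℝ) : distInt t ≤ |t| := by
  have := round_le t 0
  simpa [distInt] using this

/-- the space `ℝ^m × ℂ^(8m)` with the norm `(‖x‖_∞² + ‖y‖₂²)^(1/2)` -/
abbrev E (m : ℕ) : Type := WithLp 2 ((Fin m → ℝ) × EuclideanSpace ℂ (Fin m × Fin 8))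

/-- the points -/
noncomputable def P (m : ℕ) (c : ℝ) (g : ℤ → Fin 8 → ℂ) (u : Fin m → ℤ) : E m :=
  WithLp.toLp 2 ((fun i => (u i : ℝ)), WithLp.toLp 2 (fun q => (c : ℂ) * (g (u q.1) q.2 - g 0 q.2)))

lemma P_zero (m : ℕ) (c : ℝ) (g : ℤ → Fin 8 → ℂ) : P m c g 0 = 0 := by
  rw [P]
  have h1 : (fun i : Fin m => (((0 : Fin m → ℤ) i : ℤ) : ℝ)) = 0 := by
    funext i; simp
  have h2 : (fun q : Fin m × Fin 8 => (c : ℂ) * (g ((0 : Fin m → ℤ) q.1) q.2 - g 0 q.2)) = 0 := by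
    funext q; simp
  rw [h1, h2]
  rfl

lemma P_sub_sq (m : ℕ) (c : ℝ) (g : ℤ → Fin 8 → ℂ) (u v : Fin m → ℤ) :
    ‖P m c g u - P m c g v‖ ^ 2 = ‖(fun i => (u i : ℝ) - v i : Fin m → ℝ)‖ ^ 2 +
      c ^ 2 * ∑ i, ∑ r, ‖g (u i) r - g (v i) r‖ ^ 2 := by
  rw [WithLp.prod_norm_sq_eq_of_L2]
  congr 1
  rw [EuclideanSpace.norm_sq_eq, Fintype.sum_prod_type, Finset.mul_sum]
  refine Finset.sum_congr rfl fun i _ => ?_
  rw [Finset.mul_sum]
  refine Finset.sum_congr rfl fun r _ => ?_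
  have : (P m c g u - P m c g v).snd (i, r) = (c : ℂ) * (g (u i) r - g (v i) r) := by
    change (c : ℂ) * (g (u i) r - g 0 r) - (c : ℂ) * (g (v i) r - g 0 r) = _
    ring
  rw [this, norm_mul, mul_pow, Complex.norm_real, Real.norm_eq_abs, sq_abs]

lemma P_est (m L : ℕ) (hm : 1 ≤ m) (c : ℝ) (hc : c ^ 2 = 1 / (60000 * m)) (g : ℤ → Fin 8 → ℂ)
    (hg : ∀ s t : ℤ, s ≠ t → |t - s| ≤ L →
      (1 / 4 : ℝ) * |(t:ℝ) - s| ≤ ∑ r, ‖g t r - g s r‖ ^ 2 ∧
      ∑ r, ‖g t r - g s r‖ ^ 2 ≤ 60000 * |(t:ℝ) - s|)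
    (u v : Fin m → ℤ) (huv : u ≠ v) (hL : ∀ i, |u i - v i| ≤ L) :
    ∃ n : ℕ, 1 ≤ n ∧ n ≤ L ∧
      (n:ℝ) ^ 2 + 1 / (240000 * m) * n ≤ ‖P m c g u - P m c g v‖ ^ 2 ∧
      ‖P m c g u - P m c g v‖ ^ 2 ≤ (n:ℝ) ^ 2 + n := by
  have hmR : (1:ℝ) ≤ m := by exact_mod_cast hm
  obtain ⟨i0, -, hi0⟩ := Finset.exists_max_image (Finset.univ : Finset (Fin m))
    (fun i => |u i - v i|) ⟨⟨0, by omega⟩, Finset.mem_univ _⟩
  set n : ℕ := (u i0 - v i0).natAbs with hn
  have hnZ : (n : ℤ) = |u i0 - v i0| := by rw [hn]; simp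
  have hle : ∀ i, |(u i : ℝ) - v i| ≤ n := by
    intro i
    have h := hi0 i (Finset.mem_univ _)
    rw [← hnZ] at h
    have : ((|u i - v i| : ℤ) : ℝ) ≤ ((n : ℤ) : ℝ) := by exact_mod_cast h
    push_cast at this
    exact this
  have heq : |(u i0 : ℝ) - v i0| = n := by
    have : ((n : ℤ) : ℝ) = ((|u i0 - v i0| : ℤ) : ℝ) := by rw [hnZ]
    push_cast at this
    exact this.symm
  have hn1 : 1 ≤ n := by
    by_contra hcon
    have h0 : n = 0 := by omega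
    apply huv
    funext i
    have h := hi0 i (Finset.mem_univ _)
    rw [← hnZ, h0] at h
    have : |u i - v i| = 0 := le_antisymm (by exact_mod_cast h) (abs_nonneg _)
    rw [abs_eq_zero] at this
    omega
  have hnL : n ≤ L := by
    have := hL i0
    rw [← hnZ] at this
    exact_mod_cast this
  have hnR : (1:ℝ) ≤ n := by exact_mod_cast hn1
  have hnorm : ‖(fun i => (u i : ℝ) - v i : Fin m → ℝ)‖ = n := by
    apply le_antisymm
    · rw [pi_norm_le_iff_of_nonneg (by positivity)]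
      intro i
      rw [Real.norm_eq_abs]
      exact hle i
    · have h := norm_le_pi_norm (fun i => (u i : ℝ) - v i : Fin m → ℝ) i0
      rw [Real.norm_eq_abs, heq] at h
      exact h
  have hg' : ∀ i, ∑ r, ‖g (u i) r - g (v i) r‖ ^ 2 ≤ 60000 * n := by
    intro i
    rcases eq_or_ne (v i) (u i) with h | h
    · rw [h]; simp
    · exact ((hg (v i) (u i) h (hL i)).2).trans (by nlinarith [hle i])
  have hup : ∑ i, ∑ r, ‖g (u i) r - g (v i) r‖ ^ 2 ≤ 60000 * m * n := by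
    calc ∑ i, ∑ r, ‖g (u i) r - g (v i) r‖ ^ 2 ≤ ∑ i : Fin m, (60000 * n : ℝ) :=
          Finset.sum_le_sum fun i _ => hg' i
      _ = 60000 * m * n := by simp; ring
  have hlow : (1/4 : ℝ) * n ≤ ∑ i, ∑ r, ‖g (u i) r - g (v i) r‖ ^ 2 := by
    have h1 : v i0 ≠ u i0 := by
      intro h
      rw [h] at hn
      simp at hn
      omega
    have h2 := (hg (v i0) (u i0) h1 (hL i0)).1
    rw [heq] at h2
    exact h2.trans (Finset.single_le_sum (f := fun i => ∑ r, ‖g (u i) r - g (v i) r‖ ^ 2)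
      (fun i _ => Finset.sum_nonneg fun r _ => by positivity) (Finset.mem_univ i0))
  refine ⟨n, hn1, hnL, ?_, ?_⟩
  · rw [P_sub_sq, hnorm, hc]
    have : 1 / (240000 * (m:ℝ)) * n = 1 / (60000 * m) * ((1/4) * n) := by field_simp; norm_num
    rw [this]
    have : (0:ℝ) < 1 / (60000 * m) := by positivity
    nlinarith
  · rw [P_sub_sq, hnorm, hc]
    have h1 : 1 / (60000 * (m:ℝ)) * (60000 * m * n) = n := by field_simp
    have : (0:ℝ) < 1 / (60000 * m) := by positivity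
    nlinarith

lemma config (m : ℕ) (hm : 1 ≤ m) : ∀ X : ℝ, 0 < X →
    ∃ p : Fin ((⌊X / 2⌋₊ + 1) ^ m) → E m, (∀ i, ‖p i‖ ≤ X) ∧
      ∀ i j, i ≠ j → 1 / (720000 * (m:ℝ)) ≤ distInt ‖p i - p j‖ := by
  intro X hX
  have hmR : (1:ℝ) ≤ m := by exact_mod_cast hm
  set L := ⌊X / 2⌋₊ with hL
  obtain ⟨g, hg⟩ := snow L
  set c : ℝ := Real.sqrt (1 / (60000 * m)) with hc
  have hc2 : c ^ 2 = 1 / (60000 * m) := Real.sq_sqrt (by positivity)
  set U : Fin ((L + 1) ^ m) → Fin m → ℤ := fun k i =>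
    (((finFunctionFinEquiv.symm k : Fin m → Fin (L + 1)) i : ℕ) : ℤ) with hU
  have hUinj : ∀ k l, k ≠ l → U k ≠ U l := by
    intro k l hkl h
    apply hkl
    apply finFunctionFinEquiv.symm.injective
    funext i
    have := congrFun h i
    simp only [hU] at this
    apply Fin.ext
    exact_mod_cast this
  have hU0 : ∀ k i, 0 ≤ U k i ∧ U k i ≤ L := by
    intro k i
    have := ((finFunctionFinEquiv.symm k : Fin m → Fin (L + 1)) i).2
    constructor
    · exact Int.natCast_nonneg _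
    · simp only [hU]; omega
  have hdiff : ∀ k l i, |U k i - U l i| ≤ L := by
    intro k l i
    have h1 := hU0 k i
    have h2 := hU0 l i
    rw [abs_le]; omega
  refine ⟨fun k => P m c g (U k), ?_, ?_⟩
  · intro k
    by_cases h0 : U k = 0
    · simp only [h0, P_zero, norm_zero]; exact hX.le
    · obtain ⟨n, hn1, hnL, -, hn⟩ := P_est m L hm c hc2 g hg (U k) 0 h0 (by
        intro i
        have h1 := hU0 k i
        simp only [Pi.zero_apply, sub_zero]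
        rw [abs_of_nonneg h1.1]
        exact h1.2)
      rw [P_zero, sub_zero] at hn
      have h3 : (n:ℝ) ≤ X / 2 := by
        have : (n:ℝ) ≤ L := by exact_mod_cast hnL
        exact this.trans (Nat.floor_le (by positivity))
      have h4 : (1:ℝ) ≤ n := by exact_mod_cast hn1
      have h5 : ‖P m c g (U k)‖ ^ 2 ≤ X ^ 2 := by nlinarith
      exact (abs_le_of_sq_le_sq' h5 hX.le).2
  · intro k l hkl
    obtain ⟨n, hn1, hnL, hlow, hup⟩ := P_est m L hm c hc2 g hg (U k) (U l) (hUinj k l hkl)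
      (hdiff k l)
    have h4 : (1:ℝ) ≤ n := by exact_mod_cast hn1
    set t := ‖P m c g (U k) - P m c g (U l)‖ with ht
    have ht0 : 0 ≤ t := norm_nonneg _
    set a : ℝ := 1 / (720000 * (m:ℝ)) with ha
    have ha0 : 0 < a := by positivity
    have ha1 : a ≤ 1 / 720000 := by
      rw [ha]
      apply one_div_le_one_div_of_le (by norm_num)
      linarith
    have ha3 : 1 / (240000 * (m:ℝ)) = 3 * a := by rw [ha]; field_simp; norm_num
    rw [ha3] at hlow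
    refine distInt_ge t a n ?_ ?_ (by linarith)
    · by_contra hcon
      push Not at hcon
      have : t ^ 2 < (n + a) ^ 2 := by
        apply pow_lt_pow_left₀ hcon ht0 (by norm_num)
      nlinarith
    · by_contra hcon
      push Not at hcon
      have : ((n:ℝ) + 1/2) ^ 2 < t ^ 2 := by
        apply pow_lt_pow_left₀ hcon (by positivity) (by norm_num)
      nlinarith

theorem transfer {F : Type} [NormedAddCommGroup F] [NormedSpace ℝ F] [FiniteDimensional ℝ F]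
    (δ : ℝ) (hδ : 0 < δ) (Lf : ℝ → ℕ)
    (h : ∀ X : ℝ, 0 < X → ∃ p : Fin (Lf X) → F, (∀ i, ‖p i‖ ≤ X) ∧
      ∀ i j, i ≠ j → δ ≤ distInt ‖p i - p j‖) :
    ∃ N : (Fin (Module.finrank ℝ F) → ℝ) → ℝ, IsNorm N ∧ ∀ X : ℝ, 0 < X →
      (∃ B : ℕ, ∀ n, Adm N X δ n → n ≤ B) ∧ Lf X ≤ maxN N X δ := by
  set φ : F ≃ₗ[ℝ] (Fin (Module.finrank ℝ F) → ℝ) := (Module.finBasis ℝ F).equivFun with hφ
  refine ⟨fun x => ‖φ.symm x‖, ⟨?_, ?_, ?_⟩, ?_⟩
  · intro x hx
    rw [norm_pos_iff]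
    intro h0
    exact hx (φ.symm.map_eq_zero_iff.mp h0)
  · intro c x
    simp only [map_smul, norm_smul, Real.norm_eq_abs]
  · intro x y
    simp only [map_add]
    exact norm_add_le _ _
  intro X hX
  have hB : ∃ B : ℕ, ∀ n, Adm (fun x => ‖φ.symm x‖) X δ n → n ≤ B := by
    have : ProperSpace F := FiniteDimensional.proper_real F
    obtain ⟨t, -, htf, hcov⟩ := (isCompact_closedBall (0 : F) X).finite_cover_balls
      (half_pos hδ)
    refine ⟨htf.toFinset.card, ?_⟩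
    rintro n ⟨c, p, hp, hpd⟩
    have hex : ∀ i, ∃ x ∈ t, φ.symm (p i - c) ∈ Metric.ball x (δ / 2) := by
      intro i
      have : φ.symm (p i - c) ∈ Metric.closedBall (0 : F) X := by
        rw [mem_closedBall_zero_iff]; exact hp i
      have := hcov this
      simpa using this
    choose f hft hfb using hex
    have hinj : Function.Injective f := by
      intro i j hij
      by_contra hne
      have h1 := hpd i j hne
      have h2 := distInt_le ‖φ.symm (p i - p j)‖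
      rw [abs_of_nonneg (norm_nonneg _)] at h2
      have h3 : φ.symm (p i - p j) = φ.symm (p i - c) - φ.symm (p j - c) := by
        rw [← map_sub]; congr 1; abel
      have h4 := hfb i
      have h5 := hfb j
      rw [hij] at h4
      rw [mem_ball_iff_norm] at h4 h5
      have h6 : ‖φ.symm (p i - c) - φ.symm (p j - c)‖ ≤
          ‖φ.symm (p i - c) - f j‖ + ‖φ.symm (p j - c) - f j‖ := by
        have := norm_sub_le (φ.symm (p i - c) - f j) (φ.symm (p j - c) - f j)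
        rwa [sub_sub_sub_cancel_right] at this
      rw [h3] at h2
      have h7 : δ ≤ distInt ‖φ.symm (p i - c) - φ.symm (p j - c)‖ := by
        rw [← h3]; exact h1
      linarith
    have := Finset.card_le_card_of_injOn (s := (Finset.univ : Finset (Fin n)))
      (t := htf.toFinset) f (fun i _ => by simpa using hft i) hinj.injOn
    simpa using this
  refine ⟨hB, ?_⟩
  obtain ⟨B, hB⟩ := hB
  apply le_csSup ⟨B, fun n hn => hB n hn⟩
  obtain ⟨p, hp, hpd⟩ := h X hX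
  refine ⟨0, fun i => φ (p i), fun i => ?_, fun i j hij => ?_⟩
  · simpa using hp i
  · have := hpd i j hij
    simp only [map_sub, LinearEquiv.symm_apply_apply]
    exact this

/-- For every `m ≥ 1` there is a norm on some `ℝ^d` for which at least `(X/2)^m` points of a ball
of radius `X` have all mutual distances bounded away from the integers; in particular the growth
can be faster than linear. -/
theorem result :
    (∀ m : ℕ, 1 ≤ m → ∃ (d : ℕ) (N : (Fin d → ℝ) → ℝ) (δ : ℝ), IsNorm N ∧ 0 < δ ∧ δ < 1 / 2 ∧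
      ∀ X : ℝ, 0 < X → (∃ B : ℕ, ∀ n, Adm N X δ n → n ≤ B) ∧
        (X / 2) ^ m ≤ (maxN N X δ : ℝ)) ∧
    (∃ (d : ℕ) (N : (Fin d → ℝ) → ℝ) (δ : ℝ), 1 ≤ d ∧ IsNorm N ∧ 0 < δ ∧ δ < 1 / 2 ∧
      (∀ X : ℝ, 0 < X → ∃ B : ℕ, ∀ n, Adm N X δ n → n ≤ B) ∧
      Tendsto (fun X : ℝ => (maxN N X δ : ℝ) / X) atTop atTop) := by
  have main : ∀ m : ℕ, 1 ≤ m → ∃ (N : (Fin (Module.finrank ℝ (E m)) → ℝ) → ℝ) (δ : ℝ), IsNorm N ∧
      0 < δ ∧ δ < 1 / 2 ∧
      ∀ X : ℝ, 0 < X → (∃ B : ℕ, ∀ n, Adm N X δ n → n ≤ B) ∧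
        (X / 2) ^ m ≤ (maxN N X δ : ℝ) := by
    intro m hm
    have hmR : (1:ℝ) ≤ m := by exact_mod_cast hm
    have hδ : 0 < 1 / (720000 * (m:ℝ)) := by positivity
    obtain ⟨N, hN, hN2⟩ := transfer (F := E m) (1 / (720000 * (m:ℝ))) hδ
      (fun X => (⌊X / 2⌋₊ + 1) ^ m) (config m hm)
    refine ⟨N, _, hN, hδ, ?_, fun X hX => ⟨(hN2 X hX).1, ?_⟩⟩
    · have : 1 / (720000 * (m:ℝ)) ≤ 1 / 720000 := by
        apply one_div_le_one_div_of_le (by norm_num)
        linarith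
      linarith
    · have h1 := (hN2 X hX).2
      have h2 : (((⌊X / 2⌋₊ + 1) ^ m : ℕ) : ℝ) ≤ (maxN N X (1 / (720000 * (m:ℝ))) : ℝ) := by
        exact_mod_cast h1
      refine le_trans ?_ h2
      push_cast
      apply pow_le_pow_left₀ (by positivity)
      exact (Nat.lt_floor_add_one _).le
  refine ⟨fun m hm => ?_, ?_⟩
  · obtain ⟨N, δ, h⟩ := main m hm
    exact ⟨_, N, δ, h⟩
  · obtain ⟨N, δ, h1, h2, h3, h4⟩ := main 2 (by norm_num)
    refine ⟨_, N, δ, ?_, h1, h2, h3, fun X hX => (h4 X hX).1, ?_⟩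
    · rw [Nat.one_le_iff_ne_zero, ← Nat.pos_iff_ne_zero]
      have : Nontrivial (E 2) := by
        refine ⟨⟨P 2 1 0 (fun _ => 1), 0, ?_⟩⟩
        intro h
        have h5 : (P 2 1 0 (fun _ => 1)).fst = (0 : E 2).fst := by rw [h]
        have := congrFun h5 0
        simp [P] at this
      exact Module.finrank_pos
    · refine tendsto_atTop_mono' atTop (f₁ := fun X : ℝ => X / 4) ?_
        (tendsto_id.atTop_div_const (by norm_num))
      filter_upwards [eventually_gt_atTop 0] with X hX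
      rw [le_div_iff₀ hX]
      have := (h4 X hX).2
      nlinarith

end Pool.Agent.Results.MP_af7c6a_co.SuperlinearNorm
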